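import Mathlib
import Pool.Agent.Q247.OK.Dich

/-!
# `k`-fold sums and products: an arbitrary set and a set with few popular primes

For every `k ≥ 1` and `0 < ε ≤ 1` there are `L ≥ 1` and `δ, c > 0` such that
`max (|A + kB|, |A · B ^ (k)|) ≥ c (|A| |B| ^ k) ^ (1 - ε)` for ALL finite sets `A ≠ {0}` of integers
(nonempty) and all finite nonempty sets `B` of integers which have few popular primes: for each
prime `p` outside a set `P` of at most `δ log |B| / log log |B|` primes the `p`-adic valuation is the
same on all but at most `|B| / L` of the nonzero elements of `B`.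

The starting result `FewPopularPrimes` is for `k`-fold sums and products of `B` alone. Here nothing
at all is assumed of `A`, which may have any size and any structure.

Method. Group the elements of `B` by the part composed of the primes outside `P`. If many elements
of `B` lie in large groups (elements which differ by units at the primes outside `P`), the starting
files (`fibre_k`) show that `kB + A` is large for ANY set `A`. Otherwise the group of a random
element of `B` has large entropy, and since the primes outside `P` are unpopular, the one-sided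
product inequality (`prod_arb`), which needs nothing of the first set and can therefore be
iterated, gives many products.
-/

set_option autoImplicit false

namespace Pool.Agent.Results.MP_120218_co.ArbitraryPartner

open scoped Pointwise

theorem result (k : ℕ) (hk : 1 ≤ k) (ε : ℝ) (hε : 0 < ε) (hε1 : ε ≤ 1) :
    ∃ L δ c : ℝ, 1 ≤ L ∧ 0 < δ ∧ 0 < c ∧ ∀ (A B : Finset ℤ) (P : Finset ℕ),
      (∃ a ∈ A, a ≠ 0) → B.Nonempty → (∀ p ∈ P, p.Prime) →
      (P.card : ℝ) * Real.log (Real.log B.card) ≤ δ * Real.log B.card →
      (∀ p : ℕ, p.Prime → p ∉ P → ∃ e : ℕ,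
        L * ((B.filter fun b => b ≠ 0 ∧ b.natAbs.factorization p ≠ e).card : ℝ) ≤ B.card) →
      c * ((A.card : ℝ) * (B.card : ℝ) ^ k) ^ (1 - ε) ≤
        max ((A + (Fintype.piFinset fun _ : Fin k => B).image fun b => ∑ i, b i).card : ℝ)
          ((A * (Fintype.piFinset fun _ : Fin k => B).image fun b => ∏ i, b i).card : ℝ) := by
  obtain ⟨L, δ, c, hL, hδ, hc, h⟩ := Pool.Agent.Q247.OK.arb_dichk k hk ε hε hε1
  refine ⟨L, δ, c, hL, hδ, hc, fun A B P hA hB hP hPB hpop => ?_⟩
  unfold Pool.Agent.Y359.PE.fa Pool.Agent.Y359.PE.pk Pool.Agent.Y359.PE.sk at h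
  have h1 := h A B P hA hB hP hPB (by convert hpop)
  convert h1

end Pool.Agent.Results.MP_120218_co.ArbitraryPartner
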