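import Mathlib
import Pool.Agent.Q247.OK.Runs

/-!
# Products of an arbitrary set and `k` unions of long runs of polynomial values

Let each of the sets `B_1, …, B_k` be a union of long runs of polynomial values: of finitely many
value sets `f_j (I_j)` of primitive integer polynomials `f_j` of degree from `1` to `d` on intervals
`I_j` of at least `L` integers, each element of `B_i` being in at most `D` of them. Then
`|A B_1 ⋯ B_k| ≥ c (|A| |B_1| ⋯ |B_k|) ^ (1 - ε)` for ARBITRARY finite sets `A ≠ {0}` of integers.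
Here `L` and `c > 0` depend on `k, d, D, ε` only; the number, the lengths (`≥ L`) and the positions of
the intervals and the coefficients of the polynomials are arbitrary.

In particular (`A = {1}`, `B_i = B`, `f_j = x`): if `B` is any union of intervals of at least `L`
integers then `B ^ (k)` has at least `c |B| ^ (k - k ε)` elements, so the `k`-fold sum-product
conjecture holds for all sets composed of long intervals, however sparse and irregular otherwise.
-/

set_option autoImplicit false

namespace Pool.Agent.Results.MP_120218_co.ArbitraryTimesRuns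

open Polynomial
open scoped Pointwise

theorem result (k d D : ℕ) (hk : 1 ≤ k) (hd : 1 ≤ d) (hD : 1 ≤ D) (ε : ℝ) (hε : 0 < ε)
    (hε1 : ε ≤ 1) :
    ∃ (L : ℕ) (c : ℝ), 1 ≤ L ∧ 0 < c ∧ ∀ (A : Finset ℤ) (B : Fin k → Finset ℤ),
      (∃ a ∈ A, a ≠ 0) → (∀ i, (B i).Nonempty) →
      (∀ i, ∃ (ι : Type) (I : Finset ι) (f : ι → ℤ[X]) (a : ι → ℤ) (n : ι → ℕ),
        (∀ j ∈ I, (f j).IsPrimitive ∧ 1 ≤ (f j).natDegree ∧ (f j).natDegree ≤ d ∧ L ≤ n j) ∧
        (∀ x, x ∈ B i ↔ ∃ j ∈ I, ∃ t < n j, x = (f j).eval (a j + t)) ∧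
        (∀ x ∈ B i, ∀ J : Finset ι, J ⊆ I →
          (∀ j ∈ J, ∃ t < n j, x = (f j).eval (a j + t)) → J.card ≤ D)) →
      c * ((A.card : ℝ) * ∏ i, ((B i).card : ℝ)) ^ (1 - ε) ≤
        (A * (Fintype.piFinset B).image fun b => ∏ i, b i).card := by
  obtain ⟨L, c, hL, hc, h⟩ := Pool.Agent.Q247.OK.arb_runsk k d D hk hd hD ε hε hε1
  refine ⟨L, c, hL, hc, fun A B hA hB hr => ?_⟩
  have h1 := h A B hA hB fun i => by
    obtain ⟨ι, I, f, a, n, h1, h2, h3⟩ := hr i
    exact ⟨ι, I, f, a, n, h1, h2, fun x hx => h3 x hx _ (Finset.filter_subset _ _)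
      fun j hj => (Finset.mem_filter.1 hj).2⟩
  unfold Pool.Agent.Q247.OK.PB at h1
  convert h1

end Pool.Agent.Results.MP_120218_co.ArbitraryTimesRuns
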