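import Mathlib
import Pool.Agent.Q247.OK.Fin

/-!
# The `k`-fold sum-product conjecture for `A + T`: every finite set `A`, every large bounded set `T`

Let `A`, `S_1, …, S_k` be ANY finite nonempty sets of integers, `A ≠ {0}`, and `f_1, …, f_k` any
primitive integer polynomials of degrees from `1` to `d`. For every set `T` of integers in
`[-N, N]`, all tuples `(t_1, …, t_k)` in `T ^ k` except for the proportion
`3 d k exp (9 k / ε) / |T|` of them satisfy

`|A · f_1 (S_1 + t_1) ⋯ f_k (S_k + t_k)| ≥ c (|A| |S_1| ⋯ |S_k|) ^ (1 - ε)`,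

where `c > 0` depends on `k, d, ε, N` only.

Consequence for the `k`-fold Erdős–Szemerédi conjecture: for EVERY finite nonempty set `A` of
integers and EVERY set `T` of more than `3 k exp (9 k ^ 2 / ε)` integers in `[-N, N]` the set
`B = A + T` satisfies `|B ^ (k)| ≥ c |B| ^ (k - ε)`; the constant `c > 0` depends on `k, ε, N` only.
So the conjecture becomes true, already with the products alone, if one adds to any set a bounded
set with at least `M (k, ε)` elements.

Method. Products of an arbitrary set `A` and a set `B` with unpopular primes: let `x` and `y` be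
independent and uniformly distributed in `A` and `B`; expose the valuations of `x y` prime by prime.
Given the past, the valuation of `y` at the next prime is mostly constant, that of `x` is
arbitrary. If it is also almost constant, the entropy inequality of the starting files (`cell_main`)
applies; if not, a mixture of two codes shows that the entropy of the sum is at least that of the
first summand plus almost all of that of the second (`cell_arb`). Then take `y = f (s + t)` for
random `s` in `S` and `t` in the set of the exceptional shifts: for each prime `p` and each `s`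
at most `d` of these shifts make `f (s + t)` divisible by `p` if `p > 2 N`, and by a fixed high
power of `p` if `p ≤ 2 N`. As the first set is arbitrary, this can be iterated.
-/

set_option autoImplicit false

namespace Pool.Agent.Results.MP_120218_co.ShiftedSets

open Polynomial
open scoped Pointwise

theorem result :
    -- the general theorem
    (∀ k d : ℕ, 1 ≤ k → 1 ≤ d → ∀ ε : ℝ, 0 < ε → ε ≤ 1 → ∀ N : ℕ, ∃ c : ℝ, 0 < c ∧
      ∀ T ⊆ Finset.Icc (-(N : ℤ)) N, ∀ (f : Fin k → ℤ[X]) (A : Finset ℤ) (S : Fin k → Finset ℤ),
      (∀ i, (f i).IsPrimitive) → (∀ i, 1 ≤ (f i).natDegree) → (∀ i, (f i).natDegree ≤ d) →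
      (∃ a ∈ A, a ≠ 0) → (∀ i, (S i).Nonempty) →
      (T.card : ℝ) * ((Fintype.piFinset fun _ : Fin k => T).filter fun t =>
        ((A * (Fintype.piFinset S).image fun s => ∏ i, (f i).eval (s i + t i)).card : ℝ) <
          c * ((A.card : ℝ) * ∏ i, ((S i).card : ℝ)) ^ (1 - ε)).card ≤
        3 * d * k * Real.exp (9 * k / ε) * (T.card : ℝ) ^ k) ∧
    -- its consequence for the `k`-fold sum-product conjecture
    (∀ k : ℕ, 1 ≤ k → ∀ ε : ℝ, 0 < ε → ε ≤ 1 → ∀ N : ℕ, ∃ c : ℝ, 0 < c ∧
      ∀ A T : Finset ℤ, A.Nonempty → T ⊆ Finset.Icc (-(N : ℤ)) N →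
      3 * k * Real.exp (9 * (k : ℝ) ^ 2 / ε) < T.card →
      c * ((A + T).card : ℝ) ^ ((k : ℝ) - ε) ≤
        ((Fintype.piFinset fun _ : Fin k => A + T).image fun a => ∏ i, a i).card) := by
  refine ⟨?_, ?_⟩
  · intro k d hk hd ε hε hε1 N
    obtain ⟨c, hc, h⟩ := Pool.Agent.Q247.OK.kshifts k d hk hd ε hε hε1 N
    refine ⟨c, hc, fun T hT f A S hf hf1 hfd hA hS => ?_⟩
    have h1 := h T hT f A S hf hf1 hfd hA hS
    unfold Pool.Agent.Q247.OK.Pk at h1
    convert h1
  · intro k hk ε hε hε1 N
    obtain ⟨c, hc, h⟩ := Pool.Agent.Q247.OK.thick k hk ε hε hε1 N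
    refine ⟨c, hc, fun A T hA hT hTc => ?_⟩
    have h1 := h A T hA hT hTc
    convert h1

end Pool.Agent.Results.MP_120218_co.ShiftedSets
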