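import Mathlib
import Pool.Agent.Q247.OK.Sets

/-!
# Product sets of an arbitrary set and `k` sets with unpopular primes

Let `A` be an ARBITRARY finite nonempty set of nonzero integers and `B_1, …, B_k` finite nonempty
sets of nonzero integers; let `P_i` be finite sets of primes such that each prime outside `P_i` has
the same exponent in all but at most `|B_i| / L` elements of `B_i` (`L > 1`). Let `D_i` be the number
of the `P_i`-parts of the elements of `B_i`. Then

`|A B_1 ⋯ B_k| ≥ (|A| |B_1| ⋯ |B_k|) ^ (1 - 9 k / log L) / (4 ^ k D_1 ⋯ D_k)`.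

The starting results are for `k` equal sets with a condition on the set (exponent
`k - 5 k ^ 3 / log L`, no exceptional primes: `FewPopularPrimes`) and for two sets, both with the
condition (`PopularPrimesTwoSets` of the problem MP_cc0731_co). Here the sets are different, with
different sets of exceptional primes, nothing is assumed of `A`, and for equal sets `B_i` the loss
is `9 k ^ 2 / log L` instead of `5 k ^ 3 / log L` in the exponent of `|B|`.
-/

set_option autoImplicit false

namespace Pool.Agent.Results.MP_120218_co.UnpopularPrimes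

open scoped Pointwise

theorem result (k : ℕ) (L : ℝ) (hL : 1 < L) (A : Finset ℤ) (B : Fin k → Finset ℤ)
    (hA : A.Nonempty) (hB : ∀ i, (B i).Nonempty) (hA0 : (0 : ℤ) ∉ A) (hB0 : ∀ i, (0 : ℤ) ∉ B i)
    (P : Fin k → Finset ℕ) (hP : ∀ i, ∀ p ∈ P i, p.Prime)
    (hpop : ∀ i, ∀ p : ℕ, p.Prime → p ∉ P i → ∃ e : ℕ,
      L * (((B i).filter fun b => b.natAbs.factorization p ≠ e).card : ℝ) ≤ (B i).card) :
    ((A.card : ℝ) * ∏ i, ((B i).card : ℝ)) ^ (1 - 9 * k / Real.log L) ≤
      4 ^ k * (∏ i, (((B i).image fun b => ∏ p ∈ P i, p ^ b.natAbs.factorization p).card : ℝ)) *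
        (A * (Fintype.piFinset B).image fun b => ∏ i, b i).card := by
  have h := Pool.Agent.Q247.OK.oneSidedK k L hL A B hA hB hA0 hB0 P hP hpop
  unfold Pool.Agent.Q247.KP.part Pool.Agent.Y359.PE.fa Pool.Agent.Q247.OK.PB at h
  convert h

end Pool.Agent.Results.MP_120218_co.UnpopularPrimes
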